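import Pool.Agent.V11330.TB.Final

set_option autoImplicit false

open Set Filter Topology MeasureTheory ProbabilityTheory
open scoped NNReal ENNReal

namespace Pool.Agent.Results.MP_1541f7_pr.IndependenceTime

/-- `{X_{S+t} - X_S, t ≥ 0}`. -/
def after {Ω : Type} (X : ℝ → Ω → ℝ) (S : Ω → ℝ) : ℝ≥0 → Ω → ℝ :=
  fun t ω => X (S ω + t) ω - X (S ω) ω

/-- `{X_{S-t} - X_S, t ≥ 0}`. -/
def before {Ω : Type} (X : ℝ → Ω → ℝ) (S : Ω → ℝ) : ℝ≥0 → Ω → ℝ :=
  fun t ω => X (S ω - t) ω - X (S ω) ω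

/-- Forward Brownian motion; `S k` is the random time `S_{-k}`. -/
def IsFBM {Ω : Type} [MeasurableSpace Ω] (P : Measure Ω) (X : ℝ → Ω → ℝ) : Prop :=
  ∃ S : ℕ → Ω → ℝ, (∀ k, Measurable (S k)) ∧
    (∀ᵐ ω ∂P, Tendsto (fun k => S k ω) atTop atBot) ∧
    ∀ k, IsBrownianReal (after X (S k)) P

/-- Backward Brownian motion. -/
def IsBBM {Ω : Type} [MeasurableSpace Ω] (P : Measure Ω) (X : ℝ → Ω → ℝ) : Prop :=
  IsFBM P fun t => X (-t)

/-- The processes after and before the random time `T` are independent. -/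
def IndepAt {Ω : Type} [MeasurableSpace Ω] (P : Measure Ω) (X : ℝ → Ω → ℝ) (T : Ω → ℝ) : Prop :=
  IndepFun (fun ω t => after X T t ω) (fun ω t => before X T t ω) P

/-- Two-sided Brownian motion. -/
def IsTwoSidedBM {Ω : Type} [MeasurableSpace Ω] (P : Measure Ω) (X : ℝ → Ω → ℝ) : Prop :=
  ∃ S : Ω → ℝ, Measurable S ∧ IsBrownianReal (after X S) P ∧ IsBrownianReal (before X S) P ∧
    IndepAt P X S

/-- **The implication fails**: there is a process with continuous paths which is both a forward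
and a backward Brownian motion, for which the processes after and before the (random) time `T` are
independent, but which is not a two-sided Brownian motion. -/
theorem result : ∃ (Ω : Type) (_ : MeasurableSpace Ω) (P : Measure Ω) (X : ℝ → Ω → ℝ)
    (T : Ω → ℝ), IsProbabilityMeasure P ∧ (∀ t, Measurable (X t)) ∧
    (∀ ω, Continuous fun t => X t ω) ∧ Measurable T ∧
    IsFBM P X ∧ IsBBM P X ∧ IndepAt P X T ∧ ¬ IsTwoSidedBM P X := by
  obtain ⟨Ω, m, P, X, hP, hXm, hXc, h1, h2, h3, h4⟩ := Pool.Agent.V11330.TB.main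
  refine ⟨Ω, m, P, X, fun _ => 0, hP, hXm, hXc, measurable_const, h1, h2, h3, ?_⟩
  rintro ⟨S, hS, hb1, hb2, hi⟩
  exact h4 S hS hb1 hb2 hi

end Pool.Agent.Results.MP_1541f7_pr.IndependenceTime
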